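import Pool.Agent.Helper97.LE.Regime

/-!
# Answer to Q1 of MP_83f2fc_pr: there need not be an infinite sequence of Eves

There is a finite measure `Λ` on `[0, 1]` in the regime Intensive infinity, without an atom at
`1`, for which the `Λ` Fleming-Viot process does not admit an infinite sequence of Eves.

The example is `ν = u⁻² Λ(du) = ∑ⱼ (A j) δ_(1 / A j) + ∑ⱼ 8^(-(j + 1)) δ_(1 - 1 / B j)`, where the
integers `A 0, B 0, A 1, B 1, …` are chosen recursively and grow very fast.  The lookdown
representation is built on the law `fvLaw c κ` of the driving Poisson point process and of the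
initial types, for a way `ν = ∑ₖ c k • κ k` of writing the jump measure with probability measures
`κ k` on `(0, 1]`.  Almost surely all the histories (the finite lists of the atoms which are
relevant for the lowest levels) exist.

The idea of the proof: look at the first two levels outside the block of level `0` (two levels
have the same block if they have the same ancestor at time `0`).  For these parameters the
windows in which such two levels merge have a finite total expected number, so with a probability
bounded away from zero the first two levels outside the block of level `0` have different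
ancestors, while with an infinite sequence of Eves this probability would tend to zero.
-/

namespace Pool.Agent.Results.MP_83f2fc_pr.NoEvesLacunary

open MeasureTheory ProbabilityTheory Pool.Agent.Helper97.LD
open scoped NNReal

theorem result : ∃ L : Measure ℝ, IntensiveInf L ∧ L {1} = 0 ∧
    ∃ (c : ℕ → ℝ≥0) (κ : ℕ → Measure ℝ), Splits L c κ ∧
      IsProbabilityMeasure (fvLaw c κ) ∧
      (∀ᵐ ω ∂(fvLaw c κ), ∀ (n : ℕ) (s : ℝ) (x : ℕ), ∃ l, IsHist (ω.1 n) s x l) ∧
      ¬ ∀ᵐ ω ∂(fvLaw c κ), HasEves ω.1 ω.2 := by
  obtain ⟨p, hp⟩ := exists_params
  have hh := hyp_p hp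
  refine ⟨Lp p, regime_Lp hp, one_Lp hp, rt p, kp p, splits_Lp hp, prob_fvLaw hh.prob, ?_,
    no_eves_p hp⟩
  have h3 : ∀ᵐ w ∂(pathLaw (rt p) (kp p)), ∀ (n : ℕ) (s : ℝ) (x : ℕ), ∃ l,
      IsHist (w n) s x l := by
    rw [ae_all_iff]
    intro n
    exact ae_path hh.prob n (ae_hist hh)
  filter_upwards [ae_prod (q := fun _ => True) hh.prob h3 (ae_of_all _ fun _ => trivial)]
    with ω hω using hω.1

end Pool.Agent.Results.MP_83f2fc_pr.NoEvesLacunary
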